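import Mathlib

set_option autoImplicit false

namespace Pool.Agent.H.MP_b9f336_ag

open MvPolynomial

variable {n : ℕ}

/-- positive part as an exponent vector -/
noncomputable def pp (u : Fin n → ℤ) : Fin n →₀ ℕ :=
  Finsupp.equivFunOnFinite.symm (fun i => (u i).toNat)

@[simp] lemma pp_apply (u : Fin n → ℤ) (i : Fin n) : pp u i = (u i).toNat := rfl

/-- the lattice ideal -/
noncomputable def latI (L : Submodule ℤ (Fin n → ℤ)) : Ideal (MvPolynomial (Fin n) ℚ) :=
  Ideal.span {p | ∃ u ∈ L, p = monomial (pp u) (1 : ℚ) - monomial (pp (-u)) (1 : ℚ)}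

/-- exponent vector as an integer vector -/
def zz (a : Fin n →₀ ℕ) : Fin n → ℤ := fun i => (a i : ℤ)

lemma zz_add (a b : Fin n →₀ ℕ) : zz (a + b) = zz a + zz b := by
  funext i; simp [zz]

lemma zz_inj {a b : Fin n →₀ ℕ} (h : zz a = zz b) : a = b := by
  ext i; have := congrFun h i; simpa [zz] using this

lemma zz_pp (u : Fin n → ℤ) : zz (pp u) - zz (pp (-u)) = u := by
  funext i; simp only [zz, pp_apply, Pi.sub_apply, Pi.neg_apply]; omega

lemma zz_pp_of (u : Fin n → ℤ) (h : ∀ i, 0 ≤ u i) : zz (pp u) = u := by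
  funext i; have := h i; simp only [zz, pp_apply]; omega

lemma binom_mem (L : Submodule ℤ (Fin n → ℤ)) (a b : Fin n →₀ ℕ) (h : zz a - zz b ∈ L) :
    monomial a (1 : ℚ) - monomial b (1 : ℚ) ∈ latI L := by
  set u := zz a - zz b with hu
  have h1 : a = (a ⊓ b) + pp u := by
    ext i; simp only [Finsupp.add_apply, Finsupp.inf_apply, pp_apply, hu, zz, Pi.sub_apply]; omega
  have h2 : b = (a ⊓ b) + pp (-u) := by
    ext i
    simp only [Finsupp.add_apply, Finsupp.inf_apply, pp_apply, hu, zz, Pi.sub_apply, Pi.neg_apply]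
    omega
  have : monomial a (1 : ℚ) - monomial b (1 : ℚ) =
      monomial (a ⊓ b) (1 : ℚ) * (monomial (pp u) (1 : ℚ) - monomial (pp (-u)) (1 : ℚ)) := by
    rw [mul_sub, monomial_mul, monomial_mul, ← h1, ← h2, one_mul]
  rw [this]
  exact Ideal.mul_mem_left _ _ (Ideal.subset_span ⟨u, h, rfl⟩)

open Classical in
/-- sum of the coefficients over a class modulo the lattice -/
noncomputable def cls (L : Submodule ℤ (Fin n → ℤ)) (v : Fin n → ℤ) :
    MvPolynomial (Fin n) ℚ →ₗ[ℚ] ℚ :=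
  (basisMonomials (Fin n) ℚ).constr ℚ (fun a => if zz a - v ∈ L then 1 else 0)

open Classical in
lemma cls_mon (L : Submodule ℤ (Fin n → ℤ)) (v : Fin n → ℤ) (a : Fin n →₀ ℕ) (c : ℚ) :
    cls L v (monomial a c) = if zz a - v ∈ L then c else 0 := by
  have : monomial a c = c • (basisMonomials (Fin n) ℚ) a := by
    simp [smul_monomial]
  rw [this, map_smul, cls, Module.Basis.constr_basis]
  split_ifs <;> simp

lemma cls_mul (L : Submodule ℤ (Fin n → ℤ)) (f : MvPolynomial (Fin n) ℚ)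
    (hf : ∀ v, cls L v f = 0) (g : MvPolynomial (Fin n) ℚ) (v : Fin n → ℤ) :
    cls L v (g * f) = 0 := by
  induction g using MvPolynomial.induction_on' with
  | monomial a c =>
    have key : ∀ h : MvPolynomial (Fin n) ℚ,
        cls L v (monomial a c * h) = c * cls L (v - zz a) h := by
      intro h
      induction h using MvPolynomial.induction_on' with
      | monomial b e =>
        rw [monomial_mul, cls_mon, cls_mon, zz_add]
        have : zz a + zz b - v = zz b - (v - zz a) := by abel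
        rw [this]; split_ifs <;> simp
      | add p q hp hq => rw [mul_add, map_add, map_add, hp, hq, mul_add]
    rw [key, hf, mul_zero]
  | add p q hp hq => rw [add_mul, map_add, hp, hq, add_zero]

lemma cls_zero (L : Submodule ℤ (Fin n → ℤ)) (f : MvPolynomial (Fin n) ℚ) (hf : f ∈ latI L) :
    ∀ v, cls L v f = 0 := by
  refine Submodule.span_induction (p := fun f _ => ∀ v, cls L v f = 0) ?_ ?_ ?_ ?_ hf
  · rintro _ ⟨u, hu, rfl⟩ v
    rw [map_sub, cls_mon, cls_mon]
    have e : zz (pp u) - v = (zz (pp (-u)) - v) + u := by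
      have := zz_pp u
      rw [sub_eq_iff_eq_add] at this
      rw [this]; abel
    have : zz (pp u) - v ∈ L ↔ zz (pp (-u)) - v ∈ L := by
      rw [e]; exact L.add_mem_iff_left hu
    by_cases h : zz (pp u) - v ∈ L
    · rw [if_pos h, if_pos (this.mp h), sub_self]
    · rw [if_neg h, if_neg (fun h' => h (this.mpr h')), sub_self]
  · intro v; simp
  · intro x y _ _ hx hy v; rw [map_add, hx, hy, add_zero]
  · intro a x _ hx v; exact cls_mul L x hx a v

lemma exists_other (L : Submodule ℤ (Fin n → ℤ)) (f : MvPolynomial (Fin n) ℚ) (hf : f ∈ latI L)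
    (m : Fin n →₀ ℕ) (hm : m ∈ f.support) :
    ∃ m' ∈ f.support, m' ≠ m ∧ zz m' - zz m ∈ L := by
  by_contra hc
  push Not at hc
  have h0 := cls_zero L f hf (zz m)
  conv at h0 => lhs; rw [f.as_sum]
  rw [map_sum, Finset.sum_eq_single m] at h0
  · rw [cls_mon] at h0
    simp only [sub_self, L.zero_mem, if_true] at h0
    exact (mem_support_iff.mp hm) h0
  · intro b hb hne
    rw [cls_mon, if_neg (hc b hb hne)]
  · intro h; exact absurd hm h

/-- non-standard exponents for a set of improving directions -/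
def NS (M : Set (Fin n → ℤ)) : Set (Fin n →₀ ℕ) :=
  {a | ∃ g ∈ M, g ≠ 0 ∧ ∀ i, g i ≤ (a i : ℤ)}

/-- the monomial ideal of non-standard monomials -/
noncomputable def JJ (M : Set (Fin n → ℤ)) : Ideal (MvPolynomial (Fin n) ℚ) :=
  Ideal.span ((fun s => monomial s (1 : ℚ)) '' NS M)

lemma mon_mem_JJ (M : Set (Fin n → ℤ)) (a : Fin n →₀ ℕ) (c : ℚ) (h : a ∈ NS M) :
    monomial a c ∈ JJ M := by
  have : monomial a c = C c * monomial a (1 : ℚ) := by simp [C_mul_monomial]
  rw [this]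
  exact Ideal.mul_mem_left _ _ (Ideal.subset_span ⟨a, h, rfl⟩)

lemma NS_of_mem (M : Set (Fin n → ℤ)) (f : MvPolynomial (Fin n) ℚ) (hf : f ∈ JJ M)
    (a : Fin n →₀ ℕ) (ha : a ∈ f.support) : a ∈ NS M := by
  obtain ⟨s, ⟨g, hg, hg0, hgs⟩, hle⟩ := mem_ideal_span_monomial_image.mp hf a ha
  refine ⟨g, hg, hg0, fun i => (hgs i).trans ?_⟩
  exact_mod_cast hle i

/-- every lattice vector is a difference of two improving vectors with disjoint positive support -/
def Dec (L : Submodule ℤ (Fin n → ℤ)) (M : Set (Fin n → ℤ)) : Prop :=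
  ∀ k ∈ L, ∃ g ∈ M, ∃ h ∈ M, k = g - h ∧ ∀ i, g i ≤ 0 ∨ h i ≤ 0

lemma std_lower (L : Submodule ℤ (Fin n → ℤ)) (M : Set (Fin n → ℤ)) (hD : Dec L M)
    (f : MvPolynomial (Fin n) ℚ) (hf : f ∈ latI L) (m : Fin n →₀ ℕ) (hm : m ∈ f.support)
    (hs : m ∉ NS M) : ∃ m' ∈ f.support, m' ≠ m ∧ zz m' - zz m ∈ M := by
  obtain ⟨m', hm', hne, hL⟩ := exists_other L f hf m hm
  refine ⟨m', hm', hne, ?_⟩
  obtain ⟨g, hg, h, hh, he, hc⟩ := hD _ hL
  have h0 : h = 0 := by
    by_contra h0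
    apply hs
    refine ⟨h, hh, h0, fun i => ?_⟩
    have := congrFun he i
    simp only [zz, Pi.sub_apply] at this
    rcases hc i with h1 | h1 <;> omega
  rw [he, h0, sub_zero]; exact hg

/-- weight of an exponent vector -/
noncomputable def wt (w : Fin n → ℝ) (u : Fin n → ℤ) : ℝ := ∑ i, w i * (u i : ℝ)

lemma wt_sub (w : Fin n → ℝ) (u v : Fin n → ℤ) : wt w (u - v) = wt w u - wt w v := by
  simp [wt, mul_sub, Finset.sum_sub_distrib]

lemma wt_zz (w : Fin n → ℝ) (a : Fin n →₀ ℕ) : wt w (zz a) = ∑ i, w i * ((a i : ℕ) : ℝ) := by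
  simp [wt, zz]

/-- initial form -/
noncomputable def inw (w : Fin n → ℝ) (f : MvPolynomial (Fin n) ℚ) : MvPolynomial (Fin n) ℚ :=
  ∑ m ∈ f.support.filter (fun m => ∀ m' ∈ f.support,
      ∑ i, w i * ((m' i : ℕ) : ℝ) ≤ ∑ i, w i * ((m i : ℕ) : ℝ)), monomial m (coeff m f)

lemma supp_binom (a b : Fin n →₀ ℕ) (h : a ≠ b) :
    (monomial a (1 : ℚ) - monomial b (1 : ℚ)).support = {a, b} := by
  classical
  ext x
  simp only [mem_support_iff, coeff_sub, coeff_monomial, Finset.mem_insert, Finset.mem_singleton]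
  by_cases h1 : a = x <;> by_cases h2 : b = x
  · exact absurd (h1.trans h2.symm) h
  · simp [h1, h2]
  · simp [h1, h2]
  · simp [h1, h2, Ne.symm h1, Ne.symm h2]

lemma inw_binom (w : Fin n → ℝ) (a b : Fin n →₀ ℕ) (h : wt w (zz b) < wt w (zz a)) :
    inw w (monomial a (1 : ℚ) - monomial b (1 : ℚ)) = monomial a 1 := by
  have hne : a ≠ b := by rintro rfl; exact lt_irrefl _ h
  rw [wt_zz, wt_zz] at h
  unfold inw
  rw [supp_binom a b hne]
  have : Finset.filter (fun m : Fin n →₀ ℕ => ∀ m' ∈ ({a, b} : Finset (Fin n →₀ ℕ)),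
      ∑ i, w i * ((m' i : ℕ) : ℝ) ≤ ∑ i, w i * ((m i : ℕ) : ℝ)) {a, b} = {a} := by
    ext x
    simp only [Finset.mem_filter, Finset.mem_insert, Finset.mem_singleton, forall_eq_or_imp,
      forall_eq]
    constructor
    · rintro ⟨rfl | rfl, h1, _⟩
      · rfl
      · exact absurd h1 (not_le.mpr h)
    · rintro rfl
      exact ⟨Or.inl rfl, le_rfl, h.le⟩
  rw [this, Finset.sum_singleton]
  simp [coeff_monomial, Ne.symm hne]

/-- initial ideal for a weight -/
noncomputable def inI (L : Submodule ℤ (Fin n → ℤ)) (w : Fin n → ℝ) :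
    Ideal (MvPolynomial (Fin n) ℚ) :=
  Ideal.span {g | ∃ f ∈ latI L, g = inw w f}

lemma lower_ex (L : Submodule ℤ (Fin n → ℤ)) (M : Set (Fin n → ℤ)) (hML : ∀ g ∈ M, g ∈ L)
    (a : Fin n →₀ ℕ) (ha : a ∈ NS M) :
    ∃ b : Fin n →₀ ℕ, zz a - zz b ∈ M ∧ zz a - zz b ≠ 0 ∧
      monomial a (1 : ℚ) - monomial b (1 : ℚ) ∈ latI L := by
  obtain ⟨g, hg, hg0, hle⟩ := ha
  have e : zz a - zz (pp (zz a - g)) = g := by
    rw [zz_pp_of]
    · abel
    · intro i; have := hle i; simp only [zz, Pi.sub_apply]; omega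
  exact ⟨pp (zz a - g), by rw [e]; exact hg, by rw [e]; exact hg0,
    binom_mem L _ _ (by rw [e]; exact hML g hg)⟩

lemma inI_eq (L : Submodule ℤ (Fin n → ℤ)) (M : Set (Fin n → ℤ)) (hML : ∀ g ∈ M, g ∈ L)
    (hD : Dec L M) (w : Fin n → ℝ) (hw : ∀ g ∈ M, g ≠ 0 → 0 < wt w g) : inI L w = JJ M := by
  apply le_antisymm
  · rw [inI, Ideal.span_le]
    rintro _ ⟨f, hf, rfl⟩
    apply Ideal.sum_mem
    intro m hm
    rw [Finset.mem_filter] at hm
    apply mon_mem_JJ
    by_contra hs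
    obtain ⟨m', hm', hne, hM⟩ := std_lower L M hD f hf m hm.1 hs
    have h1 := hw _ hM (fun h => hne (zz_inj (sub_eq_zero.mp h)))
    have h2 := hm.2 m' hm'
    rw [wt_sub, wt_zz, wt_zz] at h1
    linarith
  · rw [JJ, Ideal.span_le]
    rintro _ ⟨a, ha, rfl⟩
    obtain ⟨b, hM, h0, hI⟩ := lower_ex L M hML a ha
    have h1 := hw _ hM h0
    rw [wt_sub] at h1
    exact Ideal.subset_span ⟨_, hI, (inw_binom w a b (by linarith)).symm⟩

/-- initial ideal for a term order -/
noncomputable def inO (L : Submodule ℤ (Fin n → ℤ)) (o : MonomialOrder (Fin n)) :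
    Ideal (MvPolynomial (Fin n) ℚ) :=
  Ideal.span {g | ∃ f ∈ latI L, f ≠ 0 ∧ g = monomial (o.degree f) (1 : ℚ)}

lemma inO_eq (L : Submodule ℤ (Fin n → ℤ)) (M : Set (Fin n → ℤ)) (hML : ∀ g ∈ M, g ∈ L)
    (hD : Dec L M) (o : MonomialOrder (Fin n))
    (ho : ∀ a b : Fin n →₀ ℕ, zz a - zz b ∈ M → a ≠ b → o.toSyn b < o.toSyn a) :
    inO L o = JJ M := by
  apply le_antisymm
  · rw [inO, Ideal.span_le]
    rintro _ ⟨f, hf, hf0, rfl⟩
    apply mon_mem_JJ
    by_contra hs
    obtain ⟨m', hm', hne, hM⟩ := std_lower L M hD f hf _ (o.degree_mem_support hf0) hs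
    exact absurd (ho _ _ hM hne) (not_lt.mpr (o.le_degree hm'))
  · rw [JJ, Ideal.span_le]
    rintro _ ⟨a, ha, rfl⟩
    obtain ⟨b, hM, h0, hI⟩ := lower_ex L M hML a ha
    have hne : a ≠ b := by rintro rfl; exact h0 (sub_self _)
    have hs := supp_binom a b hne
    have hf0 : monomial a (1 : ℚ) - monomial b (1 : ℚ) ≠ 0 := by
      intro h; rw [h] at hs
      have : a ∈ (0 : MvPolynomial (Fin n) ℚ).support := by rw [hs]; simp
      simp at this
    refine Ideal.subset_span ⟨_, hI, hf0, ?_⟩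
    have h1 := o.degree_mem_support hf0
    have h2 : a ∈ (monomial a (1 : ℚ) - monomial b (1 : ℚ)).support := by rw [hs]; simp
    have h3 := o.le_degree h2
    rw [hs, Finset.mem_insert, Finset.mem_singleton] at h1
    rcases h1 with h1 | h1
    · rw [h1]
    · rw [h1] at h3
      exact absurd (ho _ _ hM hne) (not_lt.mpr h3)

lemma wall (L : Submodule ℤ (Fin n → ℤ)) (M : Set (Fin n → ℤ)) (g : Fin n → ℤ) (hg : g ∈ L)
    (hst : ∀ h ∈ M, h ≠ 0 → ∃ i, 0 < h i ∧ 0 < g i + h i)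
    (w : Fin n → ℝ) (hw : inI L w = JJ M) : 0 ≤ wt w g := by
  by_contra hc
  push Not at hc
  have e := zz_pp g
  have h1 : wt w (zz (pp g)) < wt w (zz (pp (-g))) := by
    rw [← e, wt_sub] at hc; linarith
  have hI : monomial (pp (-g)) (1 : ℚ) - monomial (pp g) (1 : ℚ) ∈ latI L := by
    apply binom_mem
    rw [← neg_sub, e]; exact L.neg_mem hg
  have h2 : monomial (pp (-g)) (1 : ℚ) ∈ JJ M := by
    rw [← hw]
    exact Ideal.subset_span ⟨_, hI, (inw_binom w _ _ h1).symm⟩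
  obtain ⟨h, hh, h0, hle⟩ := NS_of_mem M _ h2 (pp (-g)) (by simp [support_monomial])
  obtain ⟨i, hi1, hi2⟩ := hst h hh h0
  have := hle i
  simp only [pp_apply, Pi.neg_apply] at this
  omega

end Pool.Agent.H.MP_b9f336_ag
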