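import Mathlib
import Pool.Agent.H.MP_b9f336_ag.A

set_option autoImplicit false

namespace Pool.Agent.H.MP_b9f336_ag

open Filter Topology

variable {n : ℕ}

/-- pairing with a fixed vector -/
noncomputable def dp (c : Fin n → ℝ) : (Fin n → ℝ) →ₗ[ℝ] ℝ where
  toFun w := ∑ i, c i * w i
  map_add' x y := by simp [mul_add, Finset.sum_add_distrib]
  map_smul' r x := by
    simp only [Pi.smul_apply, smul_eq_mul, RingHom.id_apply, Finset.mul_sum]
    exact Finset.sum_congr rfl (fun i _ => by ring)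

lemma dp_apply (c w : Fin n → ℝ) : dp c w = ∑ i, c i * w i := rfl

lemma small {ι : Type} [Finite ι] (φ : ι → (Fin n → ℝ) →ₗ[ℝ] ℝ) (w v : Fin n → ℝ)
    (h : ∀ i, 0 < φ i w ∨ (φ i w = 0 ∧ φ i v = 0)) :
    ∃ e : ℝ, 0 < e ∧ ∀ i, 0 ≤ φ i (w + e • v) := by
  have : ∀ᶠ e : ℝ in 𝓝[>] 0, ∀ i, 0 ≤ φ i (w + e • v) := by
    rw [Filter.eventually_all]
    intro i
    rcases h i with h | ⟨h1, h2⟩
    · apply Filter.Eventually.filter_mono nhdsWithin_le_nhds
      have hc : Continuous (fun e : ℝ => φ i w + e * φ i v) := by fun_prop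
      have := hc.continuousAt (x := 0) |>.eventually (lt_mem_nhds (show 0 < φ i w + 0 * φ i v by
        simpa using h))
      filter_upwards [this] with e he
      simpa using he.le
    · exact Filter.Eventually.of_forall (fun e => by simp [h1, h2])
  obtain ⟨e, he1, he2⟩ := (this.and self_mem_nhdsWithin).exists
  exact ⟨e, he2, he1⟩

lemma facet {ι : Type} [Finite ι] (φ : ι → (Fin n → ℝ) →ₗ[ℝ] ℝ) (S : Set (Fin n → ℝ))
    (hS : ∀ w, (∀ i, 0 < φ i w) → w ∈ S) (w0 : Fin n → ℝ) (h0 : ∀ i, 0 < φ i w0)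
    (l : ι) (wl : Fin n → ℝ) (hl : φ l wl = 0) (hl' : ∀ i, i ≠ l → 0 < φ i wl) :
    wl ∈ closure S ∧
    Module.finrank ℝ (Submodule.span ℝ {w | w ∈ closure S ∧ φ l w = 0}) + 1 =
      Module.finrank ℝ (Submodule.span ℝ (closure S)) := by
  have weak : ∀ w, (∀ i, 0 ≤ φ i w) → w ∈ closure S := by
    intro w hw
    have hc : Continuous (fun e : ℝ => w + e • w0) := by fun_prop
    have ht : Tendsto (fun e : ℝ => w + e • w0) (𝓝[>] 0) (𝓝 w) := by
      have := hc.tendsto 0
      simp only [zero_smul, add_zero] at this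
      exact this.mono_left nhdsWithin_le_nhds
    refine mem_closure_of_tendsto ht ?_
    filter_upwards [self_mem_nhdsWithin] with e he
    apply hS
    intro i
    have h1 := hw i
    have h2 := mul_pos (show (0 : ℝ) < e from he) (h0 i)
    simp only [map_add, map_smul, smul_eq_mul]
    linarith
  have hwl : wl ∈ closure S := weak _ (fun i => by
    by_cases h : i = l
    · rw [h, hl]
    · exact (hl' i h).le)
  refine ⟨hwl, ?_⟩
  have htop : Submodule.span ℝ (closure S) = ⊤ := by
    rw [eq_top_iff]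
    intro v _
    obtain ⟨e, he, h⟩ := small φ w0 v (fun i => Or.inl (h0 i))
    have h1 := Submodule.subset_span (R := ℝ) (weak _ h)
    have h2 := Submodule.subset_span (R := ℝ) (weak _ (fun i => (h0 i).le))
    have : v = e⁻¹ • ((w0 + e • v) - w0) := by
      rw [add_sub_cancel_left, smul_smul, inv_mul_cancel₀ he.ne', one_smul]
    rw [this]
    exact Submodule.smul_mem _ _ (Submodule.sub_mem _ h1 h2)
  have hker : Submodule.span ℝ {w | w ∈ closure S ∧ φ l w = 0} = LinearMap.ker (φ l) := by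
    apply le_antisymm
    · rw [Submodule.span_le]
      intro w hw
      exact hw.2
    · intro v hv
      have hv' : φ l v = 0 := hv
      obtain ⟨e, he, h⟩ := small φ wl v (fun i => by
        by_cases h : i = l
        · right; rw [h]; exact ⟨hl, hv'⟩
        · left; exact hl' i h)
      have h1 : wl + e • v ∈ Submodule.span ℝ {w | w ∈ closure S ∧ φ l w = 0} :=
        Submodule.subset_span ⟨weak _ h, by simp [hl, hv']⟩
      have h2 : wl ∈ Submodule.span ℝ {w | w ∈ closure S ∧ φ l w = 0} :=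
        Submodule.subset_span ⟨hwl, hl⟩
      have : v = e⁻¹ • ((wl + e • v) - wl) := by
        rw [add_sub_cancel_left, smul_smul, inv_mul_cancel₀ he.ne', one_smul]
      rw [this]
      exact Submodule.smul_mem _ _ (Submodule.sub_mem _ h1 h2)
  rw [htop, hker, finrank_top]
  apply Module.Dual.finrank_ker_add_one_of_ne_zero
  intro h
  have := h0 l
  rw [h] at this
  simp at this

/-- improving vectors: a multiple of one parabola point plus a vector of the flat cone -/
def MM (m : ℕ) (x y t : ℤ) : Prop :=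
  ∃ l : ℤ, (m : ℤ) < l ∧ l ≤ 2 * m ∧ 0 ≤ t ∧ 0 ≤ x + l * t ∧
    0 ≤ y - l ^ 2 * t + 2 * m * (x + l * t)

lemma dec3 (m : ℕ) (hm : 1 ≤ m) (x y t : ℤ) (ht : 0 ≤ t) :
    ∃ a b : ℤ, 0 ≤ a ∧ 0 ≤ b + 2 * m * a ∧ MM m (x + a) (y + b) t ∧
      ∀ i : ℤ, (m : ℤ) < i → i ≤ 2 * m →
        (i * a + b ≤ 0 ∨ i * (x + a) + (y + b) ≤ 0) ∧
        (-(i - 1) * a - b ≤ 0 ∨ -(i - 1) * (x + a) - (y + b) + i * t ≤ 0) := by
  have hm' : (1 : ℤ) ≤ m := by exact_mod_cast hm
  set M : ℤ := (m : ℤ) with hM
  have triv : MM m x y t → ∃ a b : ℤ, 0 ≤ a ∧ 0 ≤ b + 2 * M * a ∧ MM m (x + a) (y + b) t ∧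
      ∀ i : ℤ, M < i → i ≤ 2 * M →
        (i * a + b ≤ 0 ∨ i * (x + a) + (y + b) ≤ 0) ∧
        (-(i - 1) * a - b ≤ 0 ∨ -(i - 1) * (x + a) - (y + b) + i * t ≤ 0) := by
    intro h
    exact ⟨0, 0, le_rfl, by simp, by simpa using h, fun i _ _ => ⟨Or.inl (by simp), Or.inl (by simp)⟩⟩
  by_cases hR : 0 ≤ x + (M + 1) * t
  · by_cases hy : 0 ≤ y - (M + 1) ^ 2 * t + 2 * M * (x + (M + 1) * t)
    · exact triv ⟨M + 1, by omega, by omega, ht, hR, hy⟩
    · refine ⟨0, -(y - (M + 1) ^ 2 * t + 2 * M * (x + (M + 1) * t)), le_rfl, by linarith,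
        ⟨M + 1, by omega, by omega, ht, by linarith, by rw [← hM]; linarith⟩,
        fun i h1 h2 => ⟨Or.inr ?_, Or.inl (by linarith)⟩⟩
      have e1 := mul_nonneg (show 0 ≤ 2 * M - i by omega) hR
      have e2 := mul_nonneg (mul_nonneg (show 0 ≤ i - (M + 1) by omega)
        (show 0 ≤ M + 1 by omega)) ht
      nlinarith
  have ex : ∃ l : ℤ, M < l ∧ l ≤ 2 * M ∧ (l = M + 1 ∨ -(l - 1) * x - y + l * t ≤ 0) ∧
      (l = 2 * M ∨ 0 < -l * x - y + (l + 1) * t) := by
    have key : ∀ j : ℕ, M + 1 + j ≤ 2 * M →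
        (∃ l : ℤ, M < l ∧ l ≤ 2 * M ∧ (l = M + 1 ∨ -(l - 1) * x - y + l * t ≤ 0) ∧
          (l = 2 * M ∨ 0 < -l * x - y + (l + 1) * t)) ∨
        (j = 0 ∨ -(M + 1 + j - 1) * x - y + (M + 1 + j) * t ≤ 0) := by
      intro j
      induction j with
      | zero => intro _; exact Or.inr (Or.inl rfl)
      | succ j ih =>
        intro h
        push_cast at h ⊢
        rcases ih (by omega) with h1 | h1
        · exact Or.inl h1
        · by_cases h2 : 0 < -(M + 1 + j) * x - y + (M + 1 + j + 1) * t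
          · refine Or.inl ⟨M + 1 + j, by omega, by omega, ?_, Or.inr h2⟩
            rcases h1 with h1 | h1
            · left; omega
            · right; exact h1
          · right; right; push Not at h2; linarith
    rcases key (m - 1) (by omega) with h | h
    · exact h
    · have e : ((m - 1 : ℕ) : ℤ) = M - 1 := by omega
      refine ⟨2 * M, by omega, le_rfl, ?_, Or.inl rfl⟩
      rcases h with h | h
      · left; omega
      · right; rw [e] at h; linarith
  obtain ⟨l, hl1, hl2, hX, hX'⟩ := ex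
  by_cases hY : l * x + y ≤ 0
  · have ha : 0 ≤ -l * t - x := by
      rcases hX with h | h
      · rw [h]; linarith
      · linarith
    refine ⟨-l * t - x, l ^ 2 * t - y, ha, ?_, ⟨l, hl1, hl2, ht, by linarith, by linarith⟩,
      fun i h1 h2 => ⟨?_, ?_⟩⟩
    · have := mul_nonneg (show 0 ≤ 2 * M - l by omega) ha
      nlinarith
    · by_cases hi : l ≤ i
      · right
        have := mul_nonneg (mul_nonneg (show 0 ≤ i - l by omega) (show 0 ≤ l by omega)) ht
        nlinarith
      · left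
        have hX2 : -(l - 1) * x - y + l * t ≤ 0 := by
          rcases hX with h | h
          · omega
          · exact h
        have := mul_nonneg (show 0 ≤ l - 1 - i by omega) ha
        nlinarith
    · by_cases hi : i ≤ l
      · right
        have := mul_nonneg (mul_nonneg (show 0 ≤ l - i by omega) (show 0 ≤ l + 1 by omega)) ht
        nlinarith
      · left
        have := mul_nonneg (show 0 ≤ i - 1 - l by omega) ha
        nlinarith
  push Not at hY
  by_cases hl : l = 2 * M
  · subst hl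
    by_cases hmu : 0 ≤ -2 * M * t - x
    · refine ⟨-2 * M * t - x, -2 * M * (-2 * M * t - x), hmu, by linarith,
        ⟨2 * M, hl1, le_rfl, ht, by linarith, by rw [← hM]; nlinarith⟩,
        fun i h1 h2 => ⟨Or.inl ?_, Or.inr ?_⟩⟩
      · have := mul_nonneg (show 0 ≤ 2 * M - i by omega) hmu
        nlinarith
      · have := mul_nonneg (mul_nonneg (show 0 ≤ 2 * M - i by omega)
          (show 0 ≤ 2 * M + 1 by omega)) ht
        nlinarith
    · exact triv ⟨2 * M, hl1, le_rfl, ht, by linarith, by rw [← hM]; nlinarith⟩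
  have hX3 : 0 < -l * x - y + (l + 1) * t := by
    rcases hX' with h | h
    · exact absurd h hl
    · exact h
  have hl3 : l + 1 ≤ 2 * M := by omega
  set j := l * x + y with hj
  have main : ∀ u : ℤ, u ≤ j - l * t → u ≤ -j → ∀ i : ℤ, M < i → i ≤ 2 * M → x ≤ u →
      (i * (u - x) + -l * (u - x) ≤ 0 ∨ i * (x + (u - x)) + (y + -l * (u - x)) ≤ 0) ∧
      (-(i - 1) * (u - x) - -l * (u - x) ≤ 0 ∨
        -(i - 1) * (x + (u - x)) - (y + -l * (u - x)) + i * t ≤ 0) := by
    intro u hu1 hu2 i h1 h2 hx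
    constructor
    · by_cases hi : i ≤ l
      · left
        have := mul_nonneg (show 0 ≤ l - i by omega) (show 0 ≤ u - x by omega)
        nlinarith
      · right
        have := mul_nonneg (show 0 ≤ i - l - 1 by omega) (show 0 ≤ -u by omega)
        nlinarith
    · by_cases hi : i ≤ l
      · right
        have e1 := mul_nonneg (show 0 ≤ l - i by omega) (show 0 ≤ -u by omega)
        have e2 := mul_nonneg (show 0 ≤ l - i by omega) ht
        nlinarith
      · left
        have := mul_nonneg (show 0 ≤ i - 1 - l by omega) (show 0 ≤ u - x by omega)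
        nlinarith
  have m1 : ∀ u : ℤ, j - l * t ≤ u → MM m u (j - l * u) t := by
    intro u hu
    refine ⟨l, hl1, hl2, ht, by linarith, ?_⟩
    rw [← hM]
    have := mul_nonneg (show 0 ≤ 2 * M - l by omega) (show 0 ≤ u + l * t by linarith)
    nlinarith
  have m2 : ∀ u : ℤ, -j ≤ u → MM m u (j - l * u) t := by
    intro u hu
    refine ⟨l + 1, by omega, hl3, ht, by linarith, ?_⟩
    rw [← hM]
    have := mul_nonneg (show 0 ≤ 2 * M - l - 1 by omega)
      (show 0 ≤ u + (l + 1) * t by linarith)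
    nlinarith
  have ey : y = j - l * x := by rw [hj]; ring
  by_cases c1 : j - l * t ≤ x
  · apply triv; rw [ey]; exact m1 x c1
  by_cases c2 : -j ≤ x
  · apply triv; rw [ey]; exact m2 x c2
  have fin : ∀ u : ℤ, u ≤ j - l * t → u ≤ -j → x ≤ u → MM m u (j - l * u) t →
      ∃ a b : ℤ, 0 ≤ a ∧ 0 ≤ b + 2 * M * a ∧ MM m (x + a) (y + b) t ∧
      ∀ i : ℤ, M < i → i ≤ 2 * M →
        (i * a + b ≤ 0 ∨ i * (x + a) + (y + b) ≤ 0) ∧
        (-(i - 1) * a - b ≤ 0 ∨ -(i - 1) * (x + a) - (y + b) + i * t ≤ 0) := by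
    intro u h1 h2 h3 h4
    refine ⟨u - x, -l * (u - x), by omega, ?_, ?_, fun i h5 h6 => main u h1 h2 i h5 h6 h3⟩
    · have := mul_nonneg (show 0 ≤ 2 * M - l by omega) (show 0 ≤ u - x by omega)
      nlinarith
    · have e1 : x + (u - x) = u := by ring
      have e2 : y + -l * (u - x) = j - l * u := by rw [hj]; ring
      rw [e1, e2]; exact h4
  by_cases c3 : j - l * t ≤ -j
  · exact fin _ le_rfl c3 (by omega) (m1 _ le_rfl)
  · exact fin _ (by omega) le_rfl (by omega) (m2 _ le_rfl)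

end Pool.Agent.H.MP_b9f336_ag
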