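import Mathlib
import Pool.Agent.H.MP_b9f336_ag.B

set_option autoImplicit false

namespace Pool.Agent.H.MP_b9f336_ag

/-- the rows of the Gale matrix -/
def row (m j : ℕ) (k : ℤ × ℤ × ℤ) : ℤ :=
  if j = 0 then k.2.2
  else if j = 2 * m + 1 then -k.1 - (2 * m + 1) * k.2.2
  else if j % 2 = 1 then (2 * m - ((j - 1) / 2 : ℕ)) * k.1 + k.2.1
  else -(2 * m - ((j - 1) / 2 : ℕ) - 1) * k.1 - k.2.1 + (2 * m - ((j - 1) / 2 : ℕ)) * k.2.2

/-- the lattice embedding -/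
def BB (m : ℕ) : (ℤ × ℤ × ℤ) →ₗ[ℤ] (Fin (2 * m + 4) → ℤ) where
  toFun k j := row (m + 1) j k
  map_add' x y := by
    funext j
    simp only [row, Prod.fst_add, Prod.snd_add, Pi.add_apply]
    split_ifs <;> ring
  map_smul' r x := by
    funext j
    simp only [row, Prod.smul_fst, Prod.smul_snd, Pi.smul_apply, smul_eq_mul, RingHom.id_apply]
    split_ifs <;> ring

lemma B0 (m : ℕ) (x y t : ℤ) : BB m (x, y, t) ⟨0, by omega⟩ = t := by simp [BB, row]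

lemma B1 (m : ℕ) (x y t : ℤ) : BB m (x, y, t) ⟨1, by omega⟩ = 2 * (m + 1) * x + y := by
  simp [BB, row]

lemma B2 (m : ℕ) (x y t : ℤ) :
    BB m (x, y, t) ⟨2, by omega⟩ = -(2 * (m + 1) - 1) * x - y + 2 * (m + 1) * t := by
  have : ¬ (2 = 2 * (m + 1) + 1) := by omega
  simp [BB, row, this]

lemma BZ (m : ℕ) (x y t : ℤ) :
    BB m (x, y, t) ⟨2 * m + 3, by omega⟩ = -x - (2 * (m + 1) + 1) * t := by
  have : (2 * m + 3 = 2 * (m + 1) + 1) := by omega
  simp [BB, row, this]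

lemma Bcases (m : ℕ) (j : Fin (2 * m + 4)) :
    (∀ x y t, BB m (x, y, t) j = t) ∨
    (∀ x y t, BB m (x, y, t) j = -x - (2 * (m + 1) + 1) * t) ∨
    ∃ i : ℤ, ((m + 1 : ℕ) : ℤ) < i ∧ i ≤ 2 * ((m + 1 : ℕ) : ℤ) ∧
      ((∀ x y t, BB m (x, y, t) j = i * x + y) ∨
       (∀ x y t, BB m (x, y, t) j = -(i - 1) * x - y + i * t)) := by
  have hj := j.2
  by_cases h0 : (j : ℕ) = 0
  · left; intro x y t
    simp only [BB, row, LinearMap.coe_mk, AddHom.coe_mk, if_pos h0]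
  by_cases h1 : (j : ℕ) = 2 * (m + 1) + 1
  · right; left; intro x y t
    simp only [BB, row, LinearMap.coe_mk, AddHom.coe_mk, if_neg h0, if_pos h1]
    push_cast; ring
  right; right
  refine ⟨2 * ((m + 1 : ℕ) : ℤ) - (((j : ℕ) - 1) / 2 : ℕ), by omega, by omega, ?_⟩
  by_cases h2 : (j : ℕ) % 2 = 1
  · left; intro x y t
    simp only [BB, row, LinearMap.coe_mk, AddHom.coe_mk, if_neg h0, if_neg h1, if_pos h2]
  · right; intro x y t
    simp only [BB, row, LinearMap.coe_mk, AddHom.coe_mk, if_neg h0, if_neg h1, if_neg h2]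

lemma BXY (m : ℕ) (i : ℤ) (h1 : ((m + 1 : ℕ) : ℤ) < i) (h2 : i ≤ 2 * ((m + 1 : ℕ) : ℤ)) :
    (∃ j, ∀ x y t, BB m (x, y, t) j = i * x + y) ∧
    (∃ j, ∀ x y t, BB m (x, y, t) j = -(i - 1) * x - y + i * t) := by
  obtain ⟨s, hs⟩ : ∃ s : ℕ, i = 2 * ((m + 1 : ℕ) : ℤ) - s :=
    ⟨(2 * ((m + 1 : ℕ) : ℤ) - i).toNat, by omega⟩
  constructor
  · refine ⟨⟨2 * s + 1, by omega⟩, fun x y t => ?_⟩
    have a0 : ¬ (2 * s + 1 = 0) := by omega
    have a1 : ¬ (2 * s + 1 = 2 * (m + 1) + 1) := by omega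
    have a2 : (2 * s + 1) % 2 = 1 := by omega
    have a3 : (2 * s + 1 - 1) / 2 = s := by omega
    simp only [BB, row, LinearMap.coe_mk, AddHom.coe_mk, if_neg a0, if_neg a1, if_pos a2, a3, hs]
  · refine ⟨⟨2 * s + 2, by omega⟩, fun x y t => ?_⟩
    have a0 : ¬ (2 * s + 2 = 0) := by omega
    have a1 : ¬ (2 * s + 2 = 2 * (m + 1) + 1) := by omega
    have a2 : ¬ ((2 * s + 2) % 2 = 1) := by omega
    have a3 : (2 * s + 2 - 1) / 2 = s := by omega
    simp only [BB, row, LinearMap.coe_mk, AddHom.coe_mk, if_neg a0, if_neg a1, if_neg a2, a3, hs]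

/-- left inverse -/
def rho (m : ℕ) (v : Fin (2 * m + 4) → ℤ) : ℤ × ℤ × ℤ :=
  (v ⟨1, by omega⟩ + v ⟨2, by omega⟩ - 2 * (m + 1) * v ⟨0, by omega⟩,
   v ⟨1, by omega⟩ - 2 * (m + 1) *
     (v ⟨1, by omega⟩ + v ⟨2, by omega⟩ - 2 * (m + 1) * v ⟨0, by omega⟩),
   v ⟨0, by omega⟩)

lemma rho_B (m : ℕ) (k : ℤ × ℤ × ℤ) : rho m (BB m k) = k := by
  obtain ⟨x, y, t⟩ := k
  simp only [rho, B0, B1, B2, Prod.mk.injEq, and_true]
  constructor <;> ring

lemma rho_smul (m : ℕ) (c : ℤ) (v : Fin (2 * m + 4) → ℤ) : rho m (c • v) = c • rho m v := by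
  simp only [rho, Pi.smul_apply, smul_eq_mul, Prod.smul_mk, Prod.mk.injEq, and_true]
  constructor <;> ring

lemma B_inj (m : ℕ) : Function.Injective (BB m) := fun a b h => by
  rw [← rho_B m a, h, rho_B]

/-- the lattice -/
def LL (m : ℕ) : Submodule ℤ (Fin (2 * m + 4) → ℤ) := LinearMap.range (BB m)

lemma LL_rank (m : ℕ) : Module.finrank ℤ (LL m) = 3 := by
  rw [LL, LinearMap.finrank_range_of_inj (B_inj m)]
  simp [Module.finrank_prod]

lemma LL_sat (m : ℕ) (v : Fin (2 * m + 4) → ℤ) (c : ℤ) (hc : c ≠ 0) (h : c • v ∈ LL m) :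
    v ∈ LL m := by
  obtain ⟨k, hk⟩ := h
  refine ⟨rho m v, ?_⟩
  have : k = c • rho m v := by rw [← rho_smul, ← hk, rho_B]
  rw [this, map_smul] at hk
  exact smul_right_injective _ hc hk

lemma LL_pos (m : ℕ) : ∀ v ∈ LL m, (∀ i, 0 ≤ v i) → v = 0 := by
  rintro _ ⟨⟨x, y, t⟩, rfl⟩ h
  have h0 := h ⟨0, by omega⟩
  have h1 := h ⟨1, by omega⟩
  have h2 := h ⟨2, by omega⟩
  have h3 := h ⟨2 * m + 3, by omega⟩
  rw [B0] at h0; rw [B1] at h1; rw [B2] at h2; rw [BZ] at h3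
  have ht : t = 0 := by linarith
  subst ht
  have hx : x = 0 := by linarith
  subst hx
  have hy : y = 0 := by linarith
  subst hy
  exact map_zero (BB m)

/-- the improving vectors -/
def MS (m : ℕ) : Set (Fin (2 * m + 4) → ℤ) := {g | ∃ x y t, MM (m + 1) x y t ∧ g = BB m (x, y, t)}

lemma MS_sub (m : ℕ) : ∀ g ∈ MS m, g ∈ LL m := by
  rintro _ ⟨x, y, t, _, rfl⟩; exact ⟨_, rfl⟩

lemma dec_pos (m : ℕ) (x y t : ℤ) (ht : 0 ≤ t) :
    ∃ g ∈ MS m, ∃ h ∈ MS m, BB m (x, y, t) = g - h ∧ ∀ i, g i ≤ 0 ∨ h i ≤ 0 := by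
  obtain ⟨a, b, ha, hb, hM, hr⟩ := dec3 (m + 1) (by omega) x y t ht
  refine ⟨_, ⟨_, _, _, hM, rfl⟩, BB m (a, b, 0), ⟨a, b, 0, ⟨2 * ((m + 1 : ℕ) : ℤ), by omega,
    le_rfl, le_rfl, by simpa using ha, by simpa using hb⟩, rfl⟩, ?_, fun j => ?_⟩
  · rw [← map_sub]; simp
  · rcases Bcases m j with h | h | ⟨i, h1, h2, h | h⟩
    · right; rw [h]
    · right; rw [h]; linarith
    · rw [h, h]; exact (hr i h1 h2).1.symm
    · rw [h, h]
      rcases (hr i h1 h2).2 with h3 | h3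
      · right; linarith
      · left; exact h3

lemma dec (m : ℕ) : Dec (LL m) (MS m) := by
  rintro _ ⟨⟨x, y, t⟩, rfl⟩
  by_cases ht : 0 ≤ t
  · exact dec_pos m x y t ht
  · obtain ⟨g, hg, h, hh, he, hc⟩ := dec_pos m (-x) (-y) (-t) (by omega)
    refine ⟨h, hh, g, hg, ?_, fun i => (hc i).symm⟩
    rw [← neg_sub, ← he, ← map_neg]; simp

universe u

/-- the lexicographic order with a lifted synonym type -/
noncomputable def lexU (n : ℕ) : MonomialOrder.{0, u} (Fin n) where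
  syn := ULift.{u} (Lex (Fin n →₀ ℕ))
  linearOrderSyn := LinearOrder.lift' ULift.down ULift.down_injective
  isOrderedAddMonoid_syn :=
    @IsOrderedAddMonoid.mk _ _ (LinearOrder.lift' ULift.down ULift.down_injective).toPreorder
      (fun a b h c => add_le_add_left (show a.down ≤ b.down from h) c.down)
      (fun a b h c => add_le_add_right (show a.down ≤ b.down from h) c.down)
  toSyn :=
  { toEquiv := toLex.trans Equiv.ulift.symm
    map_add' := fun _ _ => rfl }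
  toSyn_monotone := fun _ _ h => Finsupp.toLex_monotone h
  wellFoundedLT_syn := ⟨InvImage.wf ULift.down wellFounded_lt⟩

lemma lexU_lt (n : ℕ) (a b : Fin n →₀ ℕ) :
    (lexU.{u} n).toSyn a < (lexU.{u} n).toSyn b ↔ toLex a < toLex b := Iff.rfl

lemma lex_ok (m : ℕ) (a b : Fin (2 * m + 4) →₀ ℕ) (h : zz a - zz b ∈ MS m) (hne : a ≠ b) :
    (lexU.{u} _).toSyn b < (lexU.{u} _).toSyn a := by
  obtain ⟨x, y, t, ⟨l, hl1, hl2, ht, hx, hy⟩, he⟩ := h
  have h0 := congrFun he ⟨0, by omega⟩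
  have h1 := congrFun he ⟨1, by omega⟩
  have h2 := congrFun he ⟨2, by omega⟩
  rw [B0] at h0; rw [B1] at h1; rw [B2] at h2
  simp only [zz, Pi.sub_apply] at h0 h1 h2
  rw [lexU_lt, Finsupp.Lex.lt_iff]
  simp only [ofLex_toLex]
  by_cases c0 : 0 < t
  · exact ⟨⟨0, by omega⟩, fun j hj => absurd hj (by simp), by omega⟩
  have ht0 : t = 0 := by omega
  subst ht0
  simp only [mul_zero, add_zero, sub_zero] at hx hy h2
  push_cast at hy
  by_cases c1 : 0 < 2 * (m + 1) * x + y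
  · refine ⟨⟨1, by omega⟩, fun j hj => ?_, by omega⟩
    have : j = ⟨0, by omega⟩ := by
      rw [Fin.lt_def] at hj; apply Fin.ext; simp only at hj ⊢; omega
    rw [this]; omega
  have hy0 : 2 * (m + 1) * x + y = 0 := by linarith
  by_cases c2 : 0 < x
  · refine ⟨⟨2, by omega⟩, fun j hj => ?_, ?_⟩
    · have : j = ⟨0, by omega⟩ ∨ j = ⟨1, by omega⟩ := by
        rw [Fin.lt_def] at hj; simp only [Fin.ext_iff] at hj ⊢; omega
      rcases this with h | h <;> rw [h] <;> omega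
    · have : -(2 * ((m : ℤ) + 1) - 1) * x - y = x := by linarith
      omega
  · exfalso
    have hx0 : x = 0 := by omega
    subst hx0
    have : y = 0 := by linarith
    subst this
    apply hne
    apply zz_inj
    rw [← sub_eq_zero, he]
    exact map_zero (BB m)

lemma std_p (m : ℕ) (l : ℤ) (h1 : ((m + 1 : ℕ) : ℤ) < l) (h2 : l ≤ 2 * ((m + 1 : ℕ) : ℤ)) :
    ∀ h ∈ MS m, h ≠ 0 → ∃ i, 0 < h i ∧ 0 < BB m (-l, l ^ 2, 1) i + h i := by
  rintro _ ⟨x, y, t, ⟨l', hl1, hl2, ht, hx, hy⟩, rfl⟩ h0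
  by_cases c0 : 0 < t
  · refine ⟨⟨0, by omega⟩, ?_⟩
    rw [B0, B0]; omega
  have ht0 : t = 0 := by omega
  subst ht0
  obtain ⟨⟨j, hj⟩, ⟨j', hj'⟩⟩ := BXY m l h1 h2
  by_cases c1 : 0 < l * x + y
  · refine ⟨j, ?_⟩
    rw [hj, hj]; constructor <;> nlinarith
  by_cases c2 : 0 < -(l - 1) * x - y
  · refine ⟨j', ?_⟩
    rw [hj', hj']; constructor <;> nlinarith
  exfalso
  have hx0 : x = 0 := by nlinarith
  subst hx0
  have : y = 0 := by linarith
  subst this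
  exact h0 (map_zero (BB m))

lemma wt_lin (m : ℕ) (w : Fin (2 * m + 4) → ℝ) (c : ℤ) (u v : ℤ × ℤ × ℤ) :
    wt w (BB m (c • u + v)) = c * wt w (BB m u) + wt w (BB m v) := by
  rw [map_add, map_smul]
  simp only [wt, Pi.add_apply, Pi.smul_apply, smul_eq_mul, Finset.mul_sum,
    ← Finset.sum_add_distrib]
  exact Finset.sum_congr rfl (fun i _ => by push_cast; ring)

lemma wt_surj (m : ℕ) (p q r : ℝ) :
    ∃ w : Fin (2 * m + 4) → ℝ, ∀ x y t : ℤ, wt w (BB m (x, y, t)) = p * x + q * y + r * t := by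
  refine ⟨Pi.single ⟨0, by omega⟩ (r - 2 * (m + 1) * (p - 2 * (m + 1) * q)) +
    Pi.single ⟨1, by omega⟩ (q + (p - 2 * (m + 1) * q)) +
    Pi.single ⟨2, by omega⟩ (p - 2 * (m + 1) * q), fun x y t => ?_⟩
  simp only [wt, Pi.add_apply, add_mul, Finset.sum_add_distrib, Pi.single_apply, ite_mul, zero_mul,
    Finset.sum_ite_eq', Finset.mem_univ, if_true, B0, B1, B2]
  push_cast; ring

/-- indices of parabola points -/
abbrev Ix (m : ℕ) : Type := {l : ℤ // l ∈ Finset.Ioc ((m + 1 : ℕ) : ℤ) (2 * ((m + 1 : ℕ) : ℤ))}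

/-- generators of the dual cone -/
def gen (m : ℕ) : Ix m ⊕ Bool → ℤ × ℤ × ℤ
  | Sum.inl l => (-l.1, l.1 ^ 2, 1)
  | Sum.inr true => (1, -2 * ((m + 1 : ℕ) : ℤ), 0)
  | Sum.inr false => (0, 1, 0)

/-- normal vectors -/
noncomputable def nv (m : ℕ) (i : Ix m ⊕ Bool) : Fin (2 * m + 4) → ℝ :=
  fun j => (BB m (gen m i) j : ℝ)

lemma dp_nv (m : ℕ) (i : Ix m ⊕ Bool) (w : Fin (2 * m + 4) → ℝ) :
    dp (nv m i) w = wt w (BB m (gen m i)) := by
  simp only [dp_apply, nv, wt]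
  exact Finset.sum_congr rfl (fun i _ => mul_comm _ _)

lemma pos_of (m : ℕ) (w : Fin (2 * m + 4) → ℝ) (hw : ∀ i, 0 < dp (nv m i) w) :
    ∀ g ∈ MS m, g ≠ 0 → 0 < wt w g := by
  rintro _ ⟨x, y, t, ⟨l, hl1, hl2, ht, hx, hy⟩, rfl⟩ h0
  have a1 := hw (Sum.inl ⟨l, Finset.mem_Ioc.mpr ⟨hl1, hl2⟩⟩)
  have a2 := hw (Sum.inr true)
  have a3 := hw (Sum.inr false)
  rw [dp_nv] at a1 a2 a3
  simp only [gen] at a1 a2 a3
  set a := x + l * t with ha
  set b := y - l ^ 2 * t + 2 * ((m + 1 : ℕ) : ℤ) * a with hb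
  have e : ((x, y, t) : ℤ × ℤ × ℤ) = t • (-l, l ^ 2, 1) + (a • (1, -2 * ((m + 1 : ℕ) : ℤ), 0) +
      (b • (0, 1, 0) + 0)) := by
    simp only [Prod.smul_mk, smul_eq_mul, Prod.mk_add_mk, add_zero, Prod.mk.injEq, hb, ha]
    refine ⟨by ring, by ring, by ring⟩
  have e0 : wt w (BB m 0) = 0 := by simp [wt]
  have ht' : (0 : ℝ) ≤ t := by exact_mod_cast ht
  have ha' : (0 : ℝ) ≤ a := by exact_mod_cast hx
  have hb' : (0 : ℝ) ≤ b := by exact_mod_cast hy
  have n1 := mul_nonneg ht' a1.le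
  have n2 := mul_nonneg ha' a2.le
  have n3 := mul_nonneg hb' a3.le
  have hpos : 0 < t ∨ 0 < a ∨ 0 < b := by
    by_contra hc
    push Not at hc
    apply h0
    rw [e, show t = 0 by omega, show a = 0 by omega, show b = 0 by omega]
    simp
  rw [e, wt_lin, wt_lin, wt_lin, e0]
  rcases hpos with h | h | h
  · have := mul_pos (show (0 : ℝ) < t by exact_mod_cast h) a1; linarith
  · have := mul_pos (show (0 : ℝ) < a by exact_mod_cast h) a2; linarith
  · have := mul_pos (show (0 : ℝ) < b by exact_mod_cast h) a3; linarith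

lemma tang (m : ℕ) (l : Ix m) (e : ℝ) : ∃ w : Fin (2 * m + 4) → ℝ,
    (∀ i : Ix m, dp (nv m (Sum.inl i)) w = ((i.1 : ℝ) - l.1) ^ 2 + e) ∧
    ∀ b : Bool, 0 < dp (nv m (Sum.inr b)) w := by
  obtain ⟨w, hw⟩ := wt_surj m (2 * l.1) 1 (l.1 ^ 2 + e)
  refine ⟨w, fun i => ?_, fun b => ?_⟩
  · rw [dp_nv, gen, hw]; push_cast; ring
  · have := (Finset.mem_Ioc.mp l.2).1
    have h2 : (((m + 1 : ℕ) : ℤ) : ℝ) < l.1 := by exact_mod_cast this
    cases b
    · rw [dp_nv, gen, hw]; simp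
    · rw [dp_nv, gen, hw]; push_cast at h2 ⊢; linarith

/-- the chamber -/
def CC (m : ℕ) : Set (Fin (2 * m + 4) → ℝ) :=
  closure {w | inI (LL m) w = inO (LL m) (lexU.{u} _)}

theorem many (m : ℕ) : ((m + 1 : ℕ) : ℕ∞) ≤
    Set.encard {F : Set (Fin (2 * m + 4) → ℝ) | ∃ c : Fin (2 * m + 4) → ℝ,
        (∀ w ∈ CC.{u} m, 0 ≤ ∑ i, c i * w i) ∧
        F = {w | w ∈ CC.{u} m ∧ ∑ i, c i * w i = 0} ∧
        Module.finrank ℝ (Submodule.span ℝ F) + 1 =
          Module.finrank ℝ (Submodule.span ℝ (CC.{u} m))} := by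
  have hO := inO_eq (LL m) (MS m) (MS_sub m) (dec m) (lexU.{u} _) (lex_ok.{u} m)
  have hS : ∀ w, (∀ i, 0 < dp (nv m i) w) →
      w ∈ {w | inI (LL m) w = inO (LL m) (lexU.{u} _)} := by
    intro w hw
    show inI _ _ = _
    rw [hO]
    exact inI_eq _ _ (MS_sub m) (dec m) w (pos_of m w hw)
  have hF : ∀ l : Ix m, ∃ w, (∀ i : Ix m, dp (nv m (Sum.inl i)) w = ((i.1 : ℝ) - l.1) ^ 2) ∧
      w ∈ CC.{u} m ∧ Module.finrank ℝ
        (Submodule.span ℝ {w | w ∈ CC.{u} m ∧ dp (nv m (Sum.inl l)) w = 0}) + 1 =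
      Module.finrank ℝ (Submodule.span ℝ (CC.{u} m)) := by
    intro l
    obtain ⟨w0, h1, h2⟩ := tang m l 1
    obtain ⟨w, h3, h4⟩ := tang m l 0
    simp only [add_zero] at h3
    refine ⟨w, h3, facet (fun i => dp (nv m i)) _ hS w0 ?_ (Sum.inl l) w ?_ ?_⟩
    · rintro (i | b)
      · rw [h1]; positivity
      · exact h2 b
    · rw [h3]; simp
    · rintro (i | b) hi
      · rw [h3]
        have : (i.1 : ℝ) - l.1 ≠ 0 := by
          intro h
          apply hi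
          have : i.1 = l.1 := by exact_mod_cast sub_eq_zero.mp h
          rw [Subtype.ext this]
        positivity
      · exact h4 b
  have hW : ∀ l : Ix m, ∀ w ∈ CC.{u} m, 0 ≤ dp (nv m (Sum.inl l)) w := by
    intro l w hw
    have hcl : IsClosed {w | 0 ≤ dp (nv m (Sum.inl l)) w} :=
      isClosed_le continuous_const (dp _).continuous_of_finiteDimensional
    refine closure_minimal (fun w hw => ?_) hcl hw
    have hw' : inI (LL m) w = _ := hw
    rw [hO] at hw'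
    have goal : 0 ≤ dp (nv m (Sum.inl l)) w := by
      rw [dp_nv]
      exact wall (LL m) (MS m) _ ⟨_, rfl⟩
        (std_p m l.1 (Finset.mem_Ioc.mp l.2).1 (Finset.mem_Ioc.mp l.2).2) w hw'
    exact goal
  let Fm : Ix m → Set (Fin (2 * m + 4) → ℝ) :=
    fun l => {w | w ∈ CC.{u} m ∧ dp (nv m (Sum.inl l)) w = 0}
  have inj : Function.Injective Fm := by
    intro l l' h
    obtain ⟨w, h1, h2, _⟩ := hF l
    have : w ∈ Fm l := ⟨h2, by rw [h1]; simp⟩
    rw [h] at this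
    have h3 := this.2
    rw [h1] at h3
    have : (l'.1 : ℝ) = l.1 := sub_eq_zero.mp (pow_eq_zero_iff (by norm_num) |>.mp h3)
    exact Subtype.ext (by exact_mod_cast this.symm)
  have hc : (Set.range Fm).encard = ((m + 1 : ℕ) : ℕ∞) := by
    rw [← Set.image_univ, inj.encard_image, Set.encard_univ, ENat.card_eq_coe_fintype_card,
      Fintype.card_coe, Int.card_Ioc]
    congr 1; omega
  rw [← hc]
  apply Set.encard_le_encard
  rintro _ ⟨l, rfl⟩
  obtain ⟨w, _, _, h3⟩ := hF l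
  exact ⟨nv m (Sum.inl l), hW l, rfl, h3⟩

lemma chamber_eq (n : ℕ) (L : Submodule ℤ (Fin n → ℤ)) (ord : MonomialOrder (Fin n))
    (I : Ideal (MvPolynomial (Fin n) ℚ)) (hI : latI L = I) :
    closure {w | inI L w = inO L ord} = closure {w : Fin n → ℝ |
        Ideal.span {g | ∃ f ∈ I, g =
          ∑ m ∈ (MvPolynomial.support f).filter
              (fun m => ∀ m' ∈ MvPolynomial.support f,
                ∑ i, w i * ((m' i : ℕ) : ℝ) ≤ ∑ i, w i * ((m i : ℕ) : ℝ)),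
            MvPolynomial.monomial m (MvPolynomial.coeff m f)}
        = Ideal.span {g | ∃ f ∈ I, f ≠ 0 ∧ g = MvPolynomial.monomial (ord.degree f) (1 : ℚ)}} := by
  unfold inI inO inw
  rw [hI]

lemma latI_eq (n : ℕ) (L : Submodule ℤ (Fin n → ℤ)) :
    latI L = Ideal.span {p | ∃ u ∈ L, p =
        MvPolynomial.monomial (Finsupp.equivFunOnFinite.symm (fun i => (u i).toNat)) (1 : ℚ)
        - MvPolynomial.monomial (Finsupp.equivFunOnFinite.symm (fun i => (-u i).toNat)) (1 : ℚ)} :=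
  rfl

end Pool.Agent.H.MP_b9f336_ag
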